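import Pool.Agent.Q101.FhcG

/-!
# MP_7d5718: a shift operator on `ℓ_p(X)` which is frequently hypercyclic but not Devaney chaotic
-/

set_option autoImplicit false

namespace Pool.Agent.Results.MP_7d5718_an.FrequentNotChaotic

open Q101.Fhc
open scoped ENNReal

/-- **Full (negative) answer.** For real and for complex scalars there are a separable Banach
space `X` and a sequence `S` of invertible bounded operators on `X` with
`sup_n max (‖S_n‖, ‖S_n⁻¹‖) < ∞` such that for every `1 ≤ p < ∞` the shift operator `σ_S` on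
`ℓ_p(X)` is frequently hypercyclic but not Devaney chaotic. -/
theorem result (𝕜 : Type) [RCLike 𝕜] :
    ∃ (X : Type) (_ : NormedAddCommGroup X) (_ : NormedSpace 𝕜 X),
      CompleteSpace X ∧ TopologicalSpace.SeparableSpace X ∧
      ∃ S : ℤ → InvOp 𝕜 X, UniformlyBounded S ∧
        ∀ (p : ℝ≥0∞) [Fact (1 ≤ p)], p ≠ ∞ → FrequentNotChaotic S p :=
  main' 𝕜

end Pool.Agent.Results.MP_7d5718_an.FrequentNotChaotic
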